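import Mathlib

/-!
# An inertially arbitrary sign pattern with a superpattern that is not inertially arbitrary

The order 4 sign pattern `patA` below is inertially arbitrary; its inertia `(0,0,4)` is attained
only by nilpotent matrices.  Turning the zero in position `(4,3)` into `+` gives a
superpattern `patA'` which does not attain the inertia `(0,0,4)`.
-/

open Polynomial Matrix

namespace Pool.Agent.Results.MP_557f7f_co.IapSuperpattern

/-- `B` is a realization of the sign pattern `A` (i.e. `B ∈ Q(A)`): the sign of each entry of the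
real matrix `B` is the corresponding entry of `A`. -/
def IsRealization {n : ℕ} (A : Matrix (Fin n) (Fin n) SignType) (B : Matrix (Fin n) (Fin n) ℝ) :
    Prop :=
  ∀ i j, SignType.sign (B i j) = A i j

/-- The multiset of eigenvalues of the real matrix `B`: the complex roots of its characteristic
polynomial, listed with algebraic multiplicity. -/
noncomputable def eigenvalues {n : ℕ} (B : Matrix (Fin n) (Fin n) ℝ) : Multiset ℂ :=
  (B.charpoly.map (algebraMap ℝ ℂ)).roots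

/-- The inertia `(n₊, n₋, n₀)` of the real matrix `B`: the numbers of eigenvalues of `B`
(counted with algebraic multiplicity) with positive, negative and zero real part. -/
noncomputable def inertia {n : ℕ} (B : Matrix (Fin n) (Fin n) ℝ) : ℕ × ℕ × ℕ :=
  ((eigenvalues B).countP (fun z => 0 < z.re), (eigenvalues B).countP (fun z => z.re < 0),
    (eigenvalues B).countP (fun z => z.re = 0))

/-- The sign pattern `A` of order `n` is inertially arbitrary: every triple of nonnegative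
integers with sum `n` is the inertia of some realization of `A`. -/
def InertiallyArbitrary {n : ℕ} (A : Matrix (Fin n) (Fin n) SignType) : Prop :=
  ∀ p m z : ℕ, p + m + z = n →
    ∃ B : Matrix (Fin n) (Fin n) ℝ, IsRealization A B ∧ inertia B = (p, m, z)

/-- `A'` is a superpattern of `A`: it agrees with `A` at every nonzero entry of `A`. -/
def IsSuperpattern {n : ℕ} (A' A : Matrix (Fin n) (Fin n) SignType) : Prop :=
  ∀ i j, A i j ≠ 0 → A' i j = A i j

/-! ### Realizing polynomials -/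

theorem charpoly4 (a b c d e f g h i j k l m n o p : ℝ) :
    (!![a, b, c, d; e, f, g, h; i, j, k, l; m, n, o, p] : Matrix (Fin 4) (Fin 4) ℝ).charpoly =
      X ^ 4 - C (a + f + k + p) * X ^ 3
      + C (a*f - b*e + a*k - c*i + a*p - d*m + f*k - g*j + f*p - h*n + k*p - l*o) * X ^ 2
      - C ((a*(f*k - g*j) - b*(e*k - g*i) + c*(e*j - f*i))
         + (a*(f*p - h*n) - b*(e*p - h*m) + d*(e*n - f*m))
         + (a*(k*p - l*o) - c*(i*p - l*m) + d*(i*o - k*m))
         + (f*(k*p - l*o) - g*(j*p - l*n) + h*(j*o - k*n))) * X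
      + C (a*(f*(k*p - l*o) - g*(j*p - l*n) + h*(j*o - k*n))
          - b*(e*(k*p - l*o) - g*(i*p - l*m) + h*(i*o - k*m))
          + c*(e*(j*p - l*n) - f*(i*p - l*m) + h*(i*n - j*m))
          - d*(e*(j*o - k*n) - f*(i*o - k*m) + g*(i*n - j*m))) := by
  simp [Matrix.charpoly, Matrix.charmatrix, Matrix.det_succ_row_zero, Fin.sum_univ_succ, Fin.succAbove, Matrix.diagonal]
  ring

/-- Solving the coefficient equations for positive parameters. -/
theorem solve_core (E₁ E₂ E₃ E₄ e u : ℝ) (he : 0 < e) (ha : 0 < e + E₁) (hu : 0 < u)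
    (hv : 0 < u + E₃)
    (hw : 0 < E₂ + (e + E₁) * e) (hT : 0 < E₄ + e * (u + E₃) + (e + E₁) * u)
    (hD : 4 * (E₂ + (e + E₁) * e) * u * (u + E₃) ≤ (E₄ + e * (u + E₃) + (e + E₁) * u) ^ 2) :
    ∃ a b c d e f : ℝ, 0 < a ∧ 0 < b ∧ 0 < c ∧ 0 < d ∧ 0 < e ∧ 0 < f ∧
      a - e = E₁ ∧ b * d - a * e = E₂ ∧ c - f = E₃ ∧
      b * f + c * d - c * e - a * f = E₄ := by
  obtain ⟨w, hwdef⟩ : ∃ w, w = E₂ + (e + E₁) * e := ⟨_, rfl⟩
  obtain ⟨v, hvdef⟩ : ∃ v, v = u + E₃ := ⟨_, rfl⟩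
  obtain ⟨T, hTdef⟩ : ∃ T, T = E₄ + e * (u + E₃) + (e + E₁) * u := ⟨_, rfl⟩
  rw [← hwdef] at hw hD
  rw [← hTdef] at hT hD
  rw [← hvdef] at hv hD
  have hDn : 0 ≤ T ^ 2 - 4 * w * u * v := by linarith
  have hR : 0 ≤ Real.sqrt (T ^ 2 - 4 * w * u * v) := Real.sqrt_nonneg _
  have hR2 : Real.sqrt (T ^ 2 - 4 * w * u * v) ^ 2 = T ^ 2 - 4 * w * u * v := Real.sq_sqrt hDn
  obtain ⟨R, hRdef⟩ : ∃ R, R = Real.sqrt (T ^ 2 - 4 * w * u * v) := ⟨_, rfl⟩
  rw [← hRdef] at hR hR2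
  obtain ⟨P, hPdef⟩ : ∃ P, P = (T + R) / 2 := ⟨_, rfl⟩
  have hP : 0 < P := by rw [hPdef]; linarith
  have hPT : P + w * u * v / P = T := by
    have : P * P + w * u * v = T * P := by
      rw [hPdef]; nlinarith
    field_simp
    linarith
  refine ⟨e + E₁, P / u, v, w * u / P, e, u, ha, by positivity, hv, by positivity, he, hu,
    by ring, ?_, ?_, ?_⟩
  · have hbd : P / u * (w * u / P) = w := by field_simp
    rw [hbd, hwdef]; ring
  · rw [hvdef]; ring
  · have e1 : P / u * u = P := by field_simp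
    have e2 : v * (w * u / P) = w * u * v / P := by ring
    rw [e1, e2, hPT, hTdef, hvdef]; ring

/-- any expression `α * e^2 + β * e + γ` with `α > 0` is nonnegative for large `e` -/
theorem quad_large (α β γ : ℝ) (hα : 0 < α) (L : ℝ) :
    ∃ e : ℝ, L ≤ e ∧ 1 ≤ e ∧ 0 ≤ α * e ^ 2 + β * e + γ := by
  refine ⟨1 + |L| + (|β| + |γ|) / α, ?_, ?_, ?_⟩
  · have := le_abs_self L
    have h2 : 0 ≤ (|β| + |γ|) / α := by positivity
    linarith
  · have := abs_nonneg L
    have h2 : 0 ≤ (|β| + |γ|) / α := by positivity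
    linarith
  · obtain ⟨e, he⟩ : ∃ e, e = 1 + |L| + (|β| + |γ|) / α := ⟨_, rfl⟩
    rw [← he]
    have h2 : 0 ≤ (|β| + |γ|) / α := by positivity
    have h1 : 1 ≤ e := by have := abs_nonneg L; linarith
    have h3 : α * e ≥ |β| + |γ| := by
      have : α * ((|β| + |γ|) / α) = |β| + |γ| := by field_simp
      have h4 : e ≥ (|β| + |γ|) / α := by have := abs_nonneg L; linarith
      nlinarith
    have h5 : -|β| ≤ β := neg_abs_le β
    have h6 : -|γ| ≤ γ := neg_abs_le γ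
    have h7 := abs_nonneg γ
    have h8 := abs_nonneg β
    nlinarith

theorem solve_of_ne (E₁ E₂ E₃ E₄ : ℝ) (hE : E₃ ≠ 0) :
    ∃ a b c d e f : ℝ, 0 < a ∧ 0 < b ∧ 0 < c ∧ 0 < d ∧ 0 < e ∧ 0 < f ∧
      a - e = E₁ ∧ b * d - a * e = E₂ ∧ c - f = E₃ ∧
      b * f + c * d - c * e - a * f = E₄ := by
  have a1 := neg_abs_le E₁
  have a2 := neg_abs_le E₂
  have a3 := neg_abs_le E₃
  have a4 := neg_abs_le E₄
  have b1 := abs_nonneg E₁
  have b2 := abs_nonneg E₂
  have b3 := abs_nonneg E₃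
  have b4 := abs_nonneg E₄
  obtain ⟨u, hu⟩ : ∃ u, u = |E₃| + 1 := ⟨_, rfl⟩
  have hu1 : 1 ≤ u := by linarith
  have hv1 : 1 ≤ u + E₃ := by linarith
  obtain ⟨e, he1, he2, he3⟩ := quad_large (E₃ ^ 2) (-2 * E₃ * E₁ * u + 2 * E₄ * (2 * u + E₃))
    (E₁ ^ 2 * u ^ 2 + 2 * E₄ * E₁ * u + E₄ ^ 2 - 4 * E₂ * u * (u + E₃)) (by positivity)
    (|E₁| + |E₂| + |E₄| + 1)
  have hae : 1 ≤ e + E₁ := by linarith
  have h0 : e ≤ (e + E₁) * e := by nlinarith
  have h1 : e ≤ e * (u + E₃) := by nlinarith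
  have h2 : 0 ≤ (e + E₁) * u := by nlinarith
  refine solve_core E₁ E₂ E₃ E₄ e u (by linarith) (by linarith) (by linarith) (by linarith)
    (by linarith) (by linarith) ?_
  nlinarith

/-- The order 4 sign pattern `[+ + - 0; - - + 0; 0 0 0 +; + + 0 0]`. -/
def patA : Matrix (Fin 4) (Fin 4) SignType :=
  !![ 1,  1, -1,  0;
     -1, -1,  1,  0;
      0,  0,  0,  1;
      1,  1,  0,  0]

/-- The superpattern `[+ + - 0; - - + 0; 0 0 0 +; + + + 0]` of `patA`. -/
def patA' : Matrix (Fin 4) (Fin 4) SignType :=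
  !![ 1,  1, -1,  0;
     -1, -1,  1,  0;
      0,  0,  0,  1;
      1,  1,  1,  0]

theorem realize {a b c d e f : ℝ} (ha : 0 < a) (hb : 0 < b) (hc : 0 < c) (hd : 0 < d)
    (he : 0 < e) (hf : 0 < f) :
    IsRealization patA !![a, b, -c, 0; -d, -e, f, 0; 0, 0, 0, 1; 1, 1, 0, 0] ∧
    (!![a, b, -c, 0; -d, -e, f, 0; 0, 0, 0, 1; 1, 1, 0, 0] : Matrix (Fin 4) (Fin 4) ℝ).charpoly =
      X ^ 4 - C (a - e) * X ^ 3 + C (b * d - a * e) * X ^ 2 - C (-(c - f)) * X
        + C (-(b * f + c * d - c * e - a * f)) := by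
  constructor
  · intro x y
    fin_cases x <;> fin_cases y <;> simp [patA, ha, hb, hc, hd, he, hf]
  · rw [charpoly4]
    congr 1
    · congr 1
      · congr 1
        · congr 3; ring
        · congr 2; ring
      · congr 2; ring
    · congr 1; ring

/-- the inertia of a matrix whose characteristic polynomial has the roots `z₁, z₂, z₃, z₄` -/
theorem inertia_of_roots (B : Matrix (Fin 4) (Fin 4) ℝ) (z₁ z₂ z₃ z₄ : ℂ) (E₁ E₂ E₃ E₄ : ℝ)
    (hB : B.charpoly = X ^ 4 - C E₁ * X ^ 3 + C E₂ * X ^ 2 - C E₃ * X + C E₄)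
    (h1 : (E₁ : ℂ) = z₁ + z₂ + z₃ + z₄)
    (h2 : (E₂ : ℂ) = z₁ * z₂ + z₁ * z₃ + z₁ * z₄ + z₂ * z₃ + z₂ * z₄ + z₃ * z₄)
    (h3 : (E₃ : ℂ) = z₁ * z₂ * z₃ + z₁ * z₂ * z₄ + z₁ * z₃ * z₄ + z₂ * z₃ * z₄)
    (h4 : (E₄ : ℂ) = z₁ * z₂ * z₃ * z₄) :
    eigenvalues B = {z₁, z₂, z₃, z₄} := by
  have hmap : B.charpoly.map (algebraMap ℝ ℂ) =
      (Multiset.map (fun z => X - C z) {z₁, z₂, z₃, z₄}).prod := by
    rw [hB]
    simp only [Polynomial.map_add, Polynomial.map_sub, Polynomial.map_mul, Polynomial.map_pow,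
      Polynomial.map_X, Polynomial.map_C, Complex.coe_algebraMap, h1, h2, h3, h4,
      Multiset.insert_eq_cons, Multiset.map_cons, Multiset.prod_cons, Multiset.map_singleton,
      Multiset.prod_singleton, map_add, map_mul]
    ring
  unfold eigenvalues
  rw [hmap, Polynomial.roots_multiset_prod_X_sub_C]

theorem countP_four (P : ℂ → Prop) [DecidablePred P] (z₁ z₂ z₃ z₄ : ℂ) :
    ({z₁, z₂, z₃, z₄} : Multiset ℂ).countP P =
      (if P z₁ then 1 else 0) + (if P z₂ then 1 else 0) + (if P z₃ then 1 else 0) +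
        (if P z₄ then 1 else 0) := by
  have h : ({z₁, z₂, z₃, z₄} : Multiset ℂ) = z₁ ::ₘ z₂ ::ₘ z₃ ::ₘ z₄ ::ₘ 0 := rfl
  rw [h, Multiset.countP_cons, Multiset.countP_cons, Multiset.countP_cons, Multiset.countP_cons,
    Multiset.countP_zero]
  ring

theorem exists_of_roots (z₁ z₂ z₃ z₄ : ℂ) (E₁ E₂ E₃ E₄ : ℝ) (hE : E₃ ≠ 0)
    (h1 : (E₁ : ℂ) = z₁ + z₂ + z₃ + z₄)
    (h2 : (E₂ : ℂ) = z₁ * z₂ + z₁ * z₃ + z₁ * z₄ + z₂ * z₃ + z₂ * z₄ + z₃ * z₄)
    (h3 : (E₃ : ℂ) = z₁ * z₂ * z₃ + z₁ * z₂ * z₄ + z₁ * z₃ * z₄ + z₂ * z₃ * z₄)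
    (h4 : (E₄ : ℂ) = z₁ * z₂ * z₃ * z₄) :
    ∃ B : Matrix (Fin 4) (Fin 4) ℝ, IsRealization patA B ∧ eigenvalues B = {z₁, z₂, z₃, z₄} := by
  obtain ⟨a, b, c, d, e, f, ha, hb, hc, hd, he, hf, e1, e2, e3, e4⟩ :=
    solve_of_ne E₁ E₂ (-E₃) (-E₄) (neg_ne_zero.mpr hE)
  obtain ⟨hR, hP⟩ := realize ha hb hc hd he hf
  refine ⟨_, hR, inertia_of_roots _ z₁ z₂ z₃ z₄ E₁ E₂ E₃ E₄ ?_ h1 h2 h3 h4⟩
  rw [hP, e1, e2, e3, e4, neg_neg, neg_neg]

theorem patA_iap : InertiallyArbitrary patA := by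
  intro p m z hsum
  -- reduce to a list of eigenvalues
  suffices h : ∃ B : Matrix (Fin 4) (Fin 4) ℝ, IsRealization patA B ∧
      ((eigenvalues B).countP (fun z => 0 < z.re) = p ∧
       (eigenvalues B).countP (fun z => z.re < 0) = m ∧
       (eigenvalues B).countP (fun z => z.re = 0) = z) by
    obtain ⟨B, hB, h1, h2, h3⟩ := h
    exact ⟨B, hB, by rw [inertia, h1, h2, h3]⟩
  have key : ∀ (z₁ z₂ z₃ z₄ : ℂ) (E₁ E₂ E₃ E₄ : ℝ), E₃ ≠ 0 →
      (E₁ : ℂ) = z₁ + z₂ + z₃ + z₄ →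
      (E₂ : ℂ) = z₁ * z₂ + z₁ * z₃ + z₁ * z₄ + z₂ * z₃ + z₂ * z₄ + z₃ * z₄ →
      (E₃ : ℂ) = z₁ * z₂ * z₃ + z₁ * z₂ * z₄ + z₁ * z₃ * z₄ + z₂ * z₃ * z₄ →
      (E₄ : ℂ) = z₁ * z₂ * z₃ * z₄ →
      (({z₁, z₂, z₃, z₄} : Multiset ℂ).countP (fun z => 0 < z.re) = p ∧
       ({z₁, z₂, z₃, z₄} : Multiset ℂ).countP (fun z => z.re < 0) = m ∧
       ({z₁, z₂, z₃, z₄} : Multiset ℂ).countP (fun z => z.re = 0) = z) →
      ∃ B : Matrix (Fin 4) (Fin 4) ℝ, IsRealization patA B ∧
      ((eigenvalues B).countP (fun z => 0 < z.re) = p ∧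
       (eigenvalues B).countP (fun z => z.re < 0) = m ∧
       (eigenvalues B).countP (fun z => z.re = 0) = z) := by
    intro z₁ z₂ z₃ z₄ E₁ E₂ E₃ E₄ hE h1 h2 h3 h4 hc
    obtain ⟨B, hB, hev⟩ := exists_of_roots z₁ z₂ z₃ z₄ E₁ E₂ E₃ E₄ hE h1 h2 h3 h4
    exact ⟨B, hB, by rw [hev]; exact hc⟩
  have hp : p ≤ 4 := by omega
  have hm : m ≤ 4 := by omega
  have hz : z = 4 - p - m := by omega
  interval_cases p <;> interval_cases m <;> first | (exfalso; omega) | skip
  · -- inertia (0, 0, 4): a nilpotent realization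
    obtain ⟨hR, hP⟩ := realize (a := 1) (b := 1) (c := 1) (d := 1) (e := 1) (f := 1)
      one_pos one_pos one_pos one_pos one_pos one_pos
    refine ⟨_, hR, ?_⟩
    rw [inertia_of_roots _ 0 0 0 0 0 0 0 0 (by rw [hP]; norm_num) (by simp) (by simp) (by simp)
      (by simp)]
    subst hz
    simp only [countP_four]; norm_num
  · -- inertia (0, 1, 3)
    subst hz
    apply key (-1) 0 Complex.I (-Complex.I) (-1) 1 (-1) 0 (by norm_num)
    · norm_num [Complex.ext_iff]
    · norm_num [Complex.ext_iff]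
    · norm_num [Complex.ext_iff]
    · norm_num [Complex.ext_iff]
    · simp only [countP_four]; norm_num
  · -- inertia (0, 2, 2)
    subst hz
    apply key (-1) (-1) Complex.I (-Complex.I) (-2) 2 (-2) 1 (by norm_num)
    · norm_num [Complex.ext_iff]
    · norm_num [Complex.ext_iff]
    · norm_num [Complex.ext_iff]
    · norm_num [Complex.ext_iff]
    · simp only [countP_four]; norm_num
  · -- inertia (0, 3, 1)
    subst hz
    apply key (-1) (-1) (-1) 0 (-3) 3 (-1) 0 (by norm_num)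
    · norm_num [Complex.ext_iff]
    · norm_num [Complex.ext_iff]
    · norm_num [Complex.ext_iff]
    · norm_num [Complex.ext_iff]
    · simp only [countP_four]; norm_num
  · -- inertia (0, 4, 0)
    subst hz
    apply key (-1) (-1) (-1) (-1) (-4) 6 (-4) 1 (by norm_num)
    · norm_num [Complex.ext_iff]
    · norm_num [Complex.ext_iff]
    · norm_num [Complex.ext_iff]
    · norm_num [Complex.ext_iff]
    · simp only [countP_four]; norm_num
  · -- inertia (1, 0, 3)
    subst hz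
    apply key 1 0 Complex.I (-Complex.I) 1 1 1 0 (by norm_num)
    · norm_num [Complex.ext_iff]
    · norm_num [Complex.ext_iff]
    · norm_num [Complex.ext_iff]
    · norm_num [Complex.ext_iff]
    · simp only [countP_four]; norm_num
  · -- inertia (1, 1, 2)
    subst hz
    apply key 1 (-2) Complex.I (-Complex.I) (-1) (-1) (-1) (-2) (by norm_num)
    · norm_num [Complex.ext_iff]
    · norm_num [Complex.ext_iff]
    · norm_num [Complex.ext_iff]
    · norm_num [Complex.ext_iff]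
    · simp only [countP_four]; norm_num
  · -- inertia (1, 2, 1)
    subst hz
    apply key 1 (-1) (-1) 0 (-1) (-1) 1 0 (by norm_num)
    · norm_num [Complex.ext_iff]
    · norm_num [Complex.ext_iff]
    · norm_num [Complex.ext_iff]
    · norm_num [Complex.ext_iff]
    · simp only [countP_four]; norm_num
  · -- inertia (1, 3, 0)
    subst hz
    apply key 1 (-1) (-1) (-1) (-2) 0 2 (-1) (by norm_num)
    · norm_num [Complex.ext_iff]
    · norm_num [Complex.ext_iff]
    · norm_num [Complex.ext_iff]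
    · norm_num [Complex.ext_iff]
    · simp only [countP_four]; norm_num
  · -- inertia (2, 0, 2)
    subst hz
    apply key 1 1 Complex.I (-Complex.I) 2 2 2 1 (by norm_num)
    · norm_num [Complex.ext_iff]
    · norm_num [Complex.ext_iff]
    · norm_num [Complex.ext_iff]
    · norm_num [Complex.ext_iff]
    · simp only [countP_four]; norm_num
  · -- inertia (2, 1, 1)
    subst hz
    apply key 1 1 (-1) 0 1 (-1) (-1) 0 (by norm_num)
    · norm_num [Complex.ext_iff]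
    · norm_num [Complex.ext_iff]
    · norm_num [Complex.ext_iff]
    · norm_num [Complex.ext_iff]
    · simp only [countP_four]; norm_num
  · -- inertia (2, 2, 0)
    subst hz
    apply key 1 1 (-1) (-2) (-1) (-3) 1 2 (by norm_num)
    · norm_num [Complex.ext_iff]
    · norm_num [Complex.ext_iff]
    · norm_num [Complex.ext_iff]
    · norm_num [Complex.ext_iff]
    · simp only [countP_four]; norm_num
  · -- inertia (3, 0, 1)
    subst hz
    apply key 1 1 1 0 3 3 1 0 (by norm_num)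
    · norm_num [Complex.ext_iff]
    · norm_num [Complex.ext_iff]
    · norm_num [Complex.ext_iff]
    · norm_num [Complex.ext_iff]
    · simp only [countP_four]; norm_num
  · -- inertia (3, 1, 0)
    subst hz
    apply key 1 1 1 (-1) 2 0 (-2) (-1) (by norm_num)
    · norm_num [Complex.ext_iff]
    · norm_num [Complex.ext_iff]
    · norm_num [Complex.ext_iff]
    · norm_num [Complex.ext_iff]
    · simp only [countP_four]; norm_num
  · -- inertia (4, 0, 0)
    subst hz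
    apply key 1 1 1 1 4 6 4 1 (by norm_num)
    · norm_num [Complex.ext_iff]
    · norm_num [Complex.ext_iff]
    · norm_num [Complex.ext_iff]
    · norm_num [Complex.ext_iff]
    · simp only [countP_four]; norm_num

theorem sign_pos_of {x : ℝ} (h : SignType.sign x = 1) : 0 < x := sign_eq_one_iff.mp h
theorem sign_neg_of {x : ℝ} (h : SignType.sign x = -1) : x < 0 := sign_eq_neg_one_iff.mp h
theorem sign_zero_of {x : ℝ} (h : SignType.sign x = 0) : x = 0 := sign_eq_zero_iff.mp h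

/-- If a real quartic has only roots with zero real part, then its odd elementary symmetric
functions vanish and its even ones are nonnegative. -/
theorem coeffs_of_imaginary (B : Matrix (Fin 4) (Fin 4) ℝ) (E₁ E₂ E₃ E₄ : ℝ)
    (hB : B.charpoly = X ^ 4 - C E₁ * X ^ 3 + C E₂ * X ^ 2 - C E₃ * X + C E₄)
    (hin : inertia B = (0, 0, 4)) : E₁ = 0 ∧ 0 ≤ E₂ ∧ E₃ = 0 ∧ 0 ≤ E₄ := by
  have hin1 : (eigenvalues B).countP (fun z => 0 < z.re) = 0 := congrArg Prod.fst hin
  have hin2 : (eigenvalues B).countP (fun z => z.re < 0) = 0 :=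
    congrArg (fun t => t.2.1) hin
  rw [Multiset.countP_eq_zero] at hin1 hin2
  have hre : ∀ z ∈ eigenvalues B, z.re = 0 := fun z hz =>
    le_antisymm (not_lt.mp (hin1 z hz)) (not_lt.mp (hin2 z hz))
  have hmonic : (B.charpoly.map (algebraMap ℝ ℂ)).Monic := B.charpoly_monic.map _
  have hcard : Multiset.card (eigenvalues B) = (B.charpoly.map (algebraMap ℝ ℂ)).natDegree :=
    IsAlgClosed.card_roots_eq_natDegree
  have hprod := prod_multiset_X_sub_C_of_monic_of_roots_card_eq hmonic hcard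
  have hdeg : (B.charpoly.map (algebraMap ℝ ℂ)).natDegree = 4 := by
    rw [natDegree_map, B.charpoly_natDegree_eq_dim]; rfl
  rw [hdeg, Multiset.card_eq_four] at hcard
  obtain ⟨z₁, z₂, z₃, z₄, hz⟩ := hcard
  have hz1 : z₁.re = 0 := hre z₁ (by rw [hz]; simp)
  have hz2 : z₂.re = 0 := hre z₂ (by rw [hz]; simp)
  have hz3 : z₃.re = 0 := hre z₃ (by rw [hz]; simp)
  have hz4 : z₄.re = 0 := hre z₄ (by rw [hz]; simp)
  change (Multiset.map (fun a => X - C a) (eigenvalues B)).prod = _ at hprod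
  rw [hz, hB] at hprod
  simp only [Polynomial.map_add, Polynomial.map_sub, Polynomial.map_mul, Polynomial.map_pow,
      Polynomial.map_X, Polynomial.map_C, Complex.coe_algebraMap,
      Multiset.insert_eq_cons, Multiset.map_cons, Multiset.prod_cons, Multiset.map_singleton,
      Multiset.prod_singleton] at hprod
  have hexp : (X - C z₁) * ((X - C z₂) * ((X - C z₃) * (X - C z₄))) =
      X ^ 4 - C (z₁ + z₂ + z₃ + z₄) * X ^ 3
      + C (z₁ * z₂ + z₁ * z₃ + z₁ * z₄ + z₂ * z₃ + z₂ * z₄ + z₃ * z₄) * X ^ 2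
      - C (z₁ * z₂ * z₃ + z₁ * z₂ * z₄ + z₁ * z₃ * z₄ + z₂ * z₃ * z₄) * X
      + C (z₁ * z₂ * z₃ * z₄) := by
    simp only [map_add, map_mul]; ring
  rw [hexp] at hprod
  have hcoef : ∀ a b c d a' b' c' d' : ℂ,
      (X ^ 4 - C a * X ^ 3 + C b * X ^ 2 - C c * X + C d : ℂ[X]) =
        X ^ 4 - C a' * X ^ 3 + C b' * X ^ 2 - C c' * X + C d' →
      a = a' ∧ b = b' ∧ c = c' ∧ d = d' := by
    intro a b c d a' b' c' d' h
    have c3 := congrArg (fun q => coeff q 3) h
    have c2 := congrArg (fun q => coeff q 2) h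
    have c1 := congrArg (fun q => coeff q 1) h
    have c0 := congrArg (fun q => coeff q 0) h
    simp [coeff_X, coeff_C, coeff_X_pow] at c3 c2 c1 c0
    exact ⟨c3, c2, c1, c0⟩
  obtain ⟨k1, k2, k3, k4⟩ := hcoef _ _ _ _ _ _ _ _ hprod
  -- write `zⱼ = i yⱼ`
  obtain ⟨y₁, hy1⟩ : ∃ y : ℝ, y = z₁.im := ⟨_, rfl⟩
  obtain ⟨y₂, hy2⟩ : ∃ y : ℝ, y = z₂.im := ⟨_, rfl⟩
  obtain ⟨y₃, hy3⟩ : ∃ y : ℝ, y = z₃.im := ⟨_, rfl⟩
  obtain ⟨y₄, hy4⟩ : ∃ y : ℝ, y = z₄.im := ⟨_, rfl⟩
  simp only [Complex.ext_iff, Complex.add_re, Complex.add_im, Complex.mul_re, Complex.mul_im,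
    Complex.ofReal_re, Complex.ofReal_im, hz1, hz2, hz3, hz4, ← hy1, ← hy2, ← hy3, ← hy4]
    at k1 k2 k3 k4
  obtain ⟨k1r, k1i⟩ := k1
  obtain ⟨k2r, k2i⟩ := k2
  obtain ⟨k3r, k3i⟩ := k3
  obtain ⟨k4r, k4i⟩ := k4
  have hs : y₁ + y₂ + y₃ + y₄ = 0 := k1i
  have h3 : (y₁ + y₂) * (y₃ * y₄ - y₁ * y₂) = 0 := by
    have h3' : y₁ * y₂ * y₃ + y₁ * y₂ * y₄ + y₁ * y₃ * y₄ + y₂ * y₃ * y₄ = 0 := by
      linarith [k3i]
    have hsub : y₃ + y₄ = -(y₁ + y₂) := by linarith
    have : y₁ * y₂ * y₃ + y₁ * y₂ * y₄ + y₁ * y₃ * y₄ + y₂ * y₃ * y₄ =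
      y₁ * y₂ * (y₃ + y₄) + y₃ * y₄ * (y₁ + y₂) := by ring
    rw [this, hsub] at h3'
    linarith
  refine ⟨by linarith, ?_, by linarith, ?_⟩
  · have : E₂ = (y₁ ^ 2 + y₂ ^ 2 + y₃ ^ 2 + y₄ ^ 2) / 2 := by
      have hsq : (y₁ + y₂ + y₃ + y₄) ^ 2 = 0 := by rw [hs]; ring
      nlinarith [k2r, hsq]
    rw [this]; positivity
  · have hE4 : E₄ = y₁ * y₂ * (y₃ * y₄) := by linarith [k4r]
    rcases mul_eq_zero.mp h3 with h | h
    · have e2 : y₂ = -y₁ := by linarith
      have e4 : y₄ = -y₃ := by linarith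
      rw [hE4, e2, e4]
      nlinarith [mul_nonneg (sq_nonneg y₁) (sq_nonneg y₃)]
    · have e : y₃ * y₄ = y₁ * y₂ := by linarith
      rw [hE4, e]
      exact mul_self_nonneg _

theorem no_imaginary {a b c d e f g h i s : ℝ} (ha : 0 < a) (hb : 0 < b) (hc : 0 < c)
    (hd : 0 < d) (he : 0 < e) (hf : 0 < f) (hg : 0 < g) (hh : 0 < h) (hi : 0 < i) (hs : 0 < s)
    (h1 : a - e = 0) (h2 : 0 ≤ b * d - a * e - g * s)
    (h3 : g * (f * i - c * h) - g * s * (a - e) = 0)
    (h4 : 0 ≤ -(g * (b * f * h + c * d * i - c * e * h - a * f * i)) - g * s * (b * d - a * e)) :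
    False := by
  have hae : e = a := by linarith
  subst hae
  have hu : c * h = f * i := by
    have h5 : g * (f * i - c * h) = 0 := by linarith
    have := (mul_eq_zero.mp h5).resolve_left hg.ne'
    linarith
  have hgs : 0 < g * s := by positivity
  have hprod : (b * f * h) * (c * d * i) = (b * d) * (f * i) ^ 2 := by
    calc (b * f * h) * (c * d * i) = (b * d) * (f * i) * (c * h) := by ring
      _ = _ := by rw [hu]; ring
  have hu0 : 0 < f * i := by positivity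
  have hlt : (e * (f * i)) ^ 2 < (b * f * h) * (c * d * i) := by
    rw [hprod, mul_pow]
    apply mul_lt_mul_of_pos_right _ (by positivity)
    nlinarith
  have h5 : 0 < g * s * (b * d - e * e) := by
    apply mul_pos hgs; linarith
  have h6 : g * (b * f * h + c * d * i - c * e * h - e * f * i) < 0 := by linarith
  have h7 : b * f * h + c * d * i - c * e * h - e * f * i < 0 := by
    by_contra hcon
    push Not at hcon
    have := mul_nonneg hg.le hcon
    linarith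
  have h8 : c * e * h = e * (f * i) := by rw [← hu]; ring
  have h9 : b * f * h + c * d * i < 2 * (e * (f * i)) := by
    have : e * f * i = e * (f * i) := by ring
    linarith
  have hP : 0 < b * f * h := by positivity
  have hQ : 0 < c * d * i := by positivity
  have h10 : (b * f * h + c * d * i) ^ 2 < (2 * (e * (f * i))) ^ 2 :=
    pow_lt_pow_left₀ h9 (by positivity) (by norm_num)
  nlinarith [sq_nonneg (b * f * h - c * d * i)]

theorem patA'_not_iap : ¬ InertiallyArbitrary patA' := by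
  intro hS
  obtain ⟨B, hB, hBi⟩ := hS 0 0 4 rfl
  have h00 : 0 < B 0 0 := sign_pos_of (hB 0 0)
  have h01 : 0 < B 0 1 := sign_pos_of (hB 0 1)
  have h02 : B 0 2 < 0 := sign_neg_of (hB 0 2)
  have h10 : B 1 0 < 0 := sign_neg_of (hB 1 0)
  have h11 : B 1 1 < 0 := sign_neg_of (hB 1 1)
  have h12 : 0 < B 1 2 := sign_pos_of (hB 1 2)
  have h23 : 0 < B 2 3 := sign_pos_of (hB 2 3)
  have h30 : 0 < B 3 0 := sign_pos_of (hB 3 0)
  have h31 : 0 < B 3 1 := sign_pos_of (hB 3 1)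
  have h32 : 0 < B 3 2 := sign_pos_of (hB 3 2)
  have hBeq : B = !![B 0 0, B 0 1, B 0 2, 0; B 1 0, B 1 1, B 1 2, 0;
      0, 0, 0, B 2 3; B 3 0, B 3 1, B 3 2, 0] := by
    ext x y
    fin_cases x <;> fin_cases y <;> first | rfl | exact sign_zero_of (hB _ _)
  have hcp := charpoly4 (B 0 0) (B 0 1) (B 0 2) 0 (B 1 0) (B 1 1) (B 1 2) 0 0 0 0 (B 2 3)
    (B 3 0) (B 3 1) (B 3 2) 0
  rw [← hBeq] at hcp
  obtain ⟨k1, k2, k3, k4⟩ := coeffs_of_imaginary B _ _ _ _ hcp hBi
  refine no_imaginary (a := B 0 0) (b := B 0 1) (c := -B 0 2) (d := -B 1 0) (e := -B 1 1)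
    (f := B 1 2) (g := B 2 3) (h := B 3 0) (i := B 3 1) (s := B 3 2) h00 h01 (by linarith)
    (by linarith) (by linarith) h12 h23 h30 h31 h32 ?_ ?_ ?_ ?_
  · linarith
  · linarith
  · linarith
  · linarith

/-- There is an inertially arbitrary sign pattern (of order 4) with a superpattern that is not
inertially arbitrary. -/
theorem result : ∃ A A' : Matrix (Fin 4) (Fin 4) SignType,
    IsSuperpattern A' A ∧ InertiallyArbitrary A ∧ ¬ InertiallyArbitrary A' := by
  refine ⟨patA, patA', ?_, patA_iap, patA'_not_iap⟩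
  intro i j
  fin_cases i <;> fin_cases j <;> simp [patA, patA']

end Pool.Agent.Results.MP_557f7f_co.IapSuperpattern
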