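import Mathlib

/-!
# A spectrally arbitrary sign pattern with a superpattern that is not spectrally arbitrary

The order 6 sign pattern `A` below (the direct sum of the pattern `M₄` of the problem file and
`T₂`) is spectrally arbitrary.  Its superpattern `A'`, obtained by turning the zero in
position `(1,4)` into `+`, has no nilpotent realization, so it is not spectrally arbitrary.
-/

open Polynomial Matrix

namespace Pool.Agent.Results.MP_557f7f_co.SapSuperpattern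

/-- `B` is a realization of the sign pattern `A` (i.e. `B ∈ Q(A)`): the sign of each entry of the
real matrix `B` is the corresponding entry of `A`. -/
def IsRealization {n : ℕ} (A : Matrix (Fin n) (Fin n) SignType) (B : Matrix (Fin n) (Fin n) ℝ) :
    Prop :=
  ∀ i j, SignType.sign (B i j) = A i j

/-- The sign pattern `A` of order `n` is spectrally arbitrary: every monic real polynomial of
degree `n` is the characteristic polynomial of some realization of `A`. -/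
def SpectrallyArbitrary {n : ℕ} (A : Matrix (Fin n) (Fin n) SignType) : Prop :=
  ∀ p : ℝ[X], p.Monic → p.natDegree = n →
    ∃ B : Matrix (Fin n) (Fin n) ℝ, IsRealization A B ∧ B.charpoly = p

/-- `A'` is a superpattern of `A`: it agrees with `A` at every nonzero entry of `A`. -/
def IsSuperpattern {n : ℕ} (A' A : Matrix (Fin n) (Fin n) SignType) : Prop :=
  ∀ i j, A i j ≠ 0 → A' i j = A i j

/-- Any monic real polynomial of degree at least two has a monic quadratic factor. -/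
theorem exists_quadratic_factor (p : ℝ[X]) (hp : p.Monic) (h2 : 2 ≤ p.natDegree) :
    ∃ (s t : ℝ) (q : ℝ[X]), q.Monic ∧ q.natDegree + 2 = p.natDegree ∧
      p = (X ^ 2 - C s * X + C t) * q := by
  have hquad : ∀ s t : ℝ, (X ^ 2 - C s * X + C t : ℝ[X]).Monic := by
    intro s t
    have : (X ^ 2 - C s * X + C t : ℝ[X]) = X ^ 2 + (C (-s) * X + C t) := by
      simp only [map_neg]; ring
    rw [this]
    apply Polynomial.monic_X_pow_add
    exact lt_of_le_of_lt Polynomial.degree_linear_le (by norm_num)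
  have hquadd : ∀ s t : ℝ, (X ^ 2 - C s * X + C t : ℝ[X]).natDegree = 2 := by
    intro s t
    have : (X ^ 2 - C s * X + C t : ℝ[X]) = X ^ 2 + (C (-s) * X + C t) := by
      simp only [map_neg]; ring
    rw [this]
    compute_degree!
  -- it suffices to find a dividing quadratic
  suffices h : ∃ s t : ℝ, (X ^ 2 - C s * X + C t : ℝ[X]) ∣ p by
    obtain ⟨s, t, q, hq⟩ := h
    have hqm : q.Monic := by
      rw [hq] at hp
      exact (hquad s t).of_mul_monic_left hp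
    refine ⟨s, t, q, hqm, ?_, hq⟩
    rw [hq, (hquad s t).natDegree_mul hqm, hquadd]
    ring
  have hdeg : (0 : WithBot ℕ) < (p.map (algebraMap ℝ ℂ)).degree := by
    rw [Polynomial.degree_map]
    exact Polynomial.natDegree_pos_iff_degree_pos.mp (by omega)
  obtain ⟨z, hz⟩ := Complex.exists_root hdeg
  have hz' : aeval z p = 0 := by
    rw [Polynomial.IsRoot.def, Polynomial.eval_map] at hz
    simpa [Polynomial.aeval_def] using hz
  by_cases him : z.im = 0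
  · -- real root
    have hzr : z = (z.re : ℂ) := by
      apply Complex.ext <;> simp [him]
    have hr : p.IsRoot z.re := by
      rw [hzr] at hz'
      have := hz'
      rw [show ((z.re : ℝ) : ℂ) = algebraMap ℝ ℂ z.re from rfl, Polynomial.aeval_algebraMap_apply] at this
      simpa using this
    obtain ⟨p1, hp1⟩ := Polynomial.dvd_iff_isRoot.mpr hr
    have hp1m : p1.Monic := by
      rw [hp1] at hp
      exact (Polynomial.monic_X_sub_C _).of_mul_monic_left hp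
    have hd1 : p1.natDegree + 1 = p.natDegree := by
      rw [hp1, (Polynomial.monic_X_sub_C _).natDegree_mul hp1m, Polynomial.natDegree_X_sub_C]
      ring
    have hdeg1 : (0 : WithBot ℕ) < (p1.map (algebraMap ℝ ℂ)).degree := by
      rw [Polynomial.degree_map]
      exact Polynomial.natDegree_pos_iff_degree_pos.mp (by omega)
    obtain ⟨w, hw⟩ := Complex.exists_root hdeg1
    have hw' : aeval w p1 = 0 := by
      rw [Polynomial.IsRoot.def, Polynomial.eval_map] at hw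
      simpa [Polynomial.aeval_def] using hw
    by_cases hwim : w.im = 0
    · have hwr : w = (w.re : ℂ) := by
        apply Complex.ext <;> simp [hwim]
      have hr1 : p1.IsRoot w.re := by
        rw [hwr] at hw'
        have := hw'
        rw [show ((w.re : ℝ) : ℂ) = algebraMap ℝ ℂ w.re from rfl, Polynomial.aeval_algebraMap_apply] at this
        simpa using this
      obtain ⟨p2, hp2⟩ := Polynomial.dvd_iff_isRoot.mpr hr1
      refine ⟨z.re + w.re, z.re * w.re, p2, ?_⟩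
      rw [hp1, hp2]
      simp only [map_add, map_mul]
      ring
    · have := Polynomial.quadratic_dvd_of_aeval_eq_zero_im_ne_zero p1 hw' hwim
      refine ⟨2 * w.re, ‖w‖ ^ 2, ?_⟩
      rw [hp1]
      exact Dvd.dvd.mul_left this _
  · exact ⟨2 * z.re, ‖z‖ ^ 2, Polynomial.quadratic_dvd_of_aeval_eq_zero_im_ne_zero p hz' him⟩

/-- A monic real sextic is a product of three monic real quadratics. -/
theorem sextic_factor (p : ℝ[X]) (hp : p.Monic) (h6 : p.natDegree = 6) :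
    ∃ s₁ t₁ s₂ t₂ s₃ t₃ : ℝ, p = (X ^ 2 - C s₁ * X + C t₁) * ((X ^ 2 - C s₂ * X + C t₂) *
      (X ^ 2 - C s₃ * X + C t₃)) := by
  obtain ⟨s₁, t₁, q, hq, hqd, rfl⟩ := exists_quadratic_factor p hp (by omega)
  obtain ⟨s₂, t₂, r, hr, hrd, rfl⟩ := exists_quadratic_factor q hq (by omega)
  obtain ⟨s₃, t₃, u, hu, hud, rfl⟩ := exists_quadratic_factor r hr (by omega)
  have : u = 1 := by
    exact (Polynomial.Monic.natDegree_eq_zero hu).mp (by omega)
  subst this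
  exact ⟨s₁, t₁, s₂, t₂, s₃, t₃, by ring⟩

theorem charpoly4 (a b c d e f g h i j k l m n o p : ℝ) :
    (!![a, b, c, d; e, f, g, h; i, j, k, l; m, n, o, p] : Matrix (Fin 4) (Fin 4) ℝ).charpoly =
      X ^ 4 - C (a + f + k + p) * X ^ 3
      + C (a*f - b*e + a*k - c*i + a*p - d*m + f*k - g*j + f*p - h*n + k*p - l*o) * X ^ 2
      - C ((a*(f*k - g*j) - b*(e*k - g*i) + c*(e*j - f*i))
         + (a*(f*p - h*n) - b*(e*p - h*m) + d*(e*n - f*m))
         + (a*(k*p - l*o) - c*(i*p - l*m) + d*(i*o - k*m))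
         + (f*(k*p - l*o) - g*(j*p - l*n) + h*(j*o - k*n))) * X
      + C (a*(f*(k*p - l*o) - g*(j*p - l*n) + h*(j*o - k*n))
          - b*(e*(k*p - l*o) - g*(i*p - l*m) + h*(i*o - k*m))
          + c*(e*(j*p - l*n) - f*(i*p - l*m) + h*(i*n - j*m))
          - d*(e*(j*o - k*n) - f*(i*o - k*m) + g*(i*n - j*m))) := by
  simp [Matrix.charpoly, Matrix.charmatrix, Matrix.det_succ_row_zero, Fin.sum_univ_succ, Fin.succAbove, Matrix.diagonal]
  ring

theorem M4_core (E₁ E₂ E₃ E₄ e u : ℝ) (he : 0 < e) (ha : 0 < e + E₁) (hu : 0 < u) (hv : 0 < u + E₃)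
    (hw : 0 < E₂ + (e + E₁) * e) (hT : 0 < E₄ + e * (u + E₃) + (e + E₁) * u)
    (hD : 4 * (E₂ + (e + E₁) * e) * u * (u + E₃) ≤ (E₄ + e * (u + E₃) + (e + E₁) * u) ^ 2) :
    ∃ a b c d e f g h i : ℝ, 0 < a ∧ 0 < b ∧ 0 < c ∧ 0 < d ∧ 0 < e ∧ 0 < f ∧ 0 < g ∧ 0 < h ∧
      0 < i ∧
      (!![a, b, -c, 0; -d, -e, f, 0; 0, 0, 0, -g; h, i, 0, 0] : Matrix (Fin 4) (Fin 4) ℝ).charpoly =
        X ^ 4 - C E₁ * X ^ 3 + C E₂ * X ^ 2 - C E₃ * X + C E₄ := by
  obtain ⟨w, hwdef⟩ : ∃ w, w = E₂ + (e + E₁) * e := ⟨_, rfl⟩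
  obtain ⟨v, hvdef⟩ : ∃ v, v = u + E₃ := ⟨_, rfl⟩
  obtain ⟨T, hTdef⟩ : ∃ T, T = E₄ + e * (u + E₃) + (e + E₁) * u := ⟨_, rfl⟩
  rw [← hwdef] at hw hD
  rw [← hTdef] at hT hD
  rw [← hvdef] at hv hD
  have hDn : 0 ≤ T ^ 2 - 4 * w * u * v := by linarith
  have hR : 0 ≤ Real.sqrt (T ^ 2 - 4 * w * u * v) := Real.sqrt_nonneg _
  have hR2 : Real.sqrt (T ^ 2 - 4 * w * u * v) ^ 2 = T ^ 2 - 4 * w * u * v := Real.sq_sqrt hDn
  obtain ⟨R, hRdef⟩ : ∃ R, R = Real.sqrt (T ^ 2 - 4 * w * u * v) := ⟨_, rfl⟩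
  rw [← hRdef] at hR hR2
  obtain ⟨P, hPdef⟩ : ∃ P, P = (T + R) / 2 := ⟨_, rfl⟩
  have hP : 0 < P := by rw [hPdef]; linarith
  have hPT : P + w * u * v / P = T := by
    have : P * P + w * u * v = T * P := by
      rw [hPdef]; nlinarith
    field_simp
    linarith
  refine ⟨e + E₁, P / u, v, w * u / P, e, u, 1, 1, 1, ha, by positivity, hv, by positivity, he, hu,
    one_pos, one_pos, one_pos, ?_⟩
  rw [charpoly4]
  have h1 : (e + E₁) + -e + 0 + 0 = E₁ := by ring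
  have hbd : P / u * (w * u / P) = w := by field_simp
  have h2 : (e + E₁) * -e - P / u * -(w * u / P) + (e + E₁) * 0 - -v * 0 + (e + E₁) * 0 - 0 * 1 + -e * 0 - u * 0 + -e * 0 - 0 * 1 + 0 * 0 - -1 * 0 = E₂ := by
    have : (e + E₁) * -e - P / u * -(w * u / P) + (e + E₁) * 0 - -v * 0 + (e + E₁) * 0 - 0 * 1 + -e * 0 - u * 0 + -e * 0 - 0 * 1 + 0 * 0 - -1 * 0 = -(e + E₁) * e + P / u * (w * u / P) := by ring
    rw [this, hbd, hwdef]; ring
  have h3 : ((e + E₁)*(-e*0 - u*0) - P / u*(-(w * u / P)*0 - u*0) + -v*(-(w * u / P)*0 - -e*0))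
         + ((e + E₁)*(-e*0 - 0*1) - P / u*(-(w * u / P)*0 - 0*1) + 0*(-(w * u / P)*1 - -e*1))
         + ((e + E₁)*(0*0 - -1*0) - -v*(0*0 - -1*1) + 0*(0*0 - 0*1))
         + (-e*(0*0 - -1*0) - u*(0*0 - -1*1) + 0*(0*0 - 0*1)) = E₃ := by
    rw [hvdef]; ring
  have h4 : (e + E₁)*(-e*(0*0 - -1*0) - u*(0*0 - -1*1) + 0*(0*0 - 0*1))
          - P / u*(-(w * u / P)*(0*0 - -1*0) - u*(0*0 - -1*1) + 0*(0*0 - 0*1))
          + -v*(-(w * u / P)*(0*0 - -1*1) - -e*(0*0 - -1*1) + 0*(0*1 - 0*1))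
          - 0*(-(w * u / P)*(0*0 - 0*1) - -e*(0*0 - 0*1) + u*(0*1 - 0*1)) = E₄ := by
    have e1 : P / u * u = P := by field_simp
    have e2 : v * (w * u / P) = w * u * v / P := by ring
    have : (e + E₁)*(-e*(0*0 - -1*0) - u*(0*0 - -1*1) + 0*(0*0 - 0*1))
          - P / u*(-(w * u / P)*(0*0 - -1*0) - u*(0*0 - -1*1) + 0*(0*0 - 0*1))
          + -v*(-(w * u / P)*(0*0 - -1*1) - -e*(0*0 - -1*1) + 0*(0*1 - 0*1))
          - 0*(-(w * u / P)*(0*0 - 0*1) - -e*(0*0 - 0*1) + u*(0*1 - 0*1)) =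
          P / u * u + v * (w * u / P) - e * v - (e + E₁) * u := by ring
    rw [this, e1, e2, hPT, hTdef, hvdef]; ring
  rw [h1, h2, h3, h4]

/-- large parameter: any expression `α * e^2 + β * e + γ` with `α > 0` is nonnegative for large `e` -/
theorem quad_large (α β γ : ℝ) (hα : 0 < α) (L : ℝ) :
    ∃ e : ℝ, L ≤ e ∧ 1 ≤ e ∧ 0 ≤ α * e ^ 2 + β * e + γ := by
  refine ⟨1 + |L| + (|β| + |γ|) / α, ?_, ?_, ?_⟩
  · have := le_abs_self L
    have h2 : 0 ≤ (|β| + |γ|) / α := by positivity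
    linarith
  · have := abs_nonneg L
    have h2 : 0 ≤ (|β| + |γ|) / α := by positivity
    linarith
  · obtain ⟨e, he⟩ : ∃ e, e = 1 + |L| + (|β| + |γ|) / α := ⟨_, rfl⟩
    rw [← he]
    have h2 : 0 ≤ (|β| + |γ|) / α := by positivity
    have h1 : 1 ≤ e := by have := abs_nonneg L; linarith
    have h3 : α * e ≥ |β| + |γ| := by
      have : α * ((|β| + |γ|) / α) = |β| + |γ| := by field_simp
      have h4 : e ≥ (|β| + |γ|) / α := by have := abs_nonneg L; linarith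
      nlinarith
    have h5 : -|β| ≤ β := neg_abs_le β
    have h6 : -|γ| ≤ γ := neg_abs_le γ
    have h7 := abs_nonneg γ
    have h8 := abs_nonneg β
    nlinarith

theorem lin_large (β γ : ℝ) (hβ : 0 < β) (L : ℝ) :
    ∃ e : ℝ, L ≤ e ∧ 1 ≤ e ∧ 0 ≤ β * e + γ := by
  refine ⟨1 + |L| + |γ| / β, ?_, ?_, ?_⟩
  · have := le_abs_self L
    have h2 : 0 ≤ |γ| / β := by positivity
    linarith
  · have := abs_nonneg L
    have h2 : 0 ≤ |γ| / β := by positivity
    linarith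
  · have h2 : β * (|γ| / β) = |γ| := by field_simp
    have h6 : -|γ| ≤ γ := neg_abs_le γ
    have := abs_nonneg L
    nlinarith

theorem M4_real (E₁ E₂ E₃ E₄ : ℝ)
    (hE : E₃ ≠ 0 ∨ (E₃ = 0 ∧ 0 < E₄) ∨ (E₃ = 0 ∧ E₄ = 0 ∧ 4 * E₂ ≤ E₁ ^ 2)) :
    ∃ a b c d e f g h i : ℝ, 0 < a ∧ 0 < b ∧ 0 < c ∧ 0 < d ∧ 0 < e ∧ 0 < f ∧ 0 < g ∧ 0 < h ∧
      0 < i ∧
      (!![a, b, -c, 0; -d, -e, f, 0; 0, 0, 0, -g; h, i, 0, 0] : Matrix (Fin 4) (Fin 4) ℝ).charpoly =
        X ^ 4 - C E₁ * X ^ 3 + C E₂ * X ^ 2 - C E₃ * X + C E₄ := by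
  have a1 := neg_abs_le E₁
  have a2 := neg_abs_le E₂
  have a3 := neg_abs_le E₃
  have a4 := neg_abs_le E₄
  have b1 := abs_nonneg E₁
  have b2 := abs_nonneg E₂
  have b3 := abs_nonneg E₃
  have b4 := abs_nonneg E₄
  rcases hE with h | ⟨h, h'⟩ | ⟨h, h', h''⟩
  · obtain ⟨u, hu⟩ : ∃ u, u = |E₃| + 1 := ⟨_, rfl⟩
    have hu1 : 1 ≤ u := by linarith
    have hv1 : 1 ≤ u + E₃ := by linarith
    obtain ⟨e, he1, he2, he3⟩ := quad_large (E₃ ^ 2) (-2 * E₃ * E₁ * u + 2 * E₄ * (2 * u + E₃))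
      (E₁ ^ 2 * u ^ 2 + 2 * E₄ * E₁ * u + E₄ ^ 2 - 4 * E₂ * u * (u + E₃)) (by positivity)
      (|E₁| + |E₂| + |E₄| + 1)
    have hae : 1 ≤ e + E₁ := by linarith
    have h0 : e ≤ (e + E₁) * e := by nlinarith
    have h1 : e ≤ e * (u + E₃) := by nlinarith
    have h2 : 0 ≤ (e + E₁) * u := by nlinarith
    refine M4_core E₁ E₂ E₃ E₄ e u (by linarith) (by linarith) (by linarith) (by linarith)
      (by linarith) (by linarith) ?_
    nlinarith
  · subst h
    obtain ⟨e, he1, he2, he3⟩ := lin_large (4 * E₄) (E₁ ^ 2 + 2 * E₄ * E₁ + E₄ ^ 2 - 4 * E₂)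
      (by linarith) (|E₁| + |E₂| + |E₄| + 1)
    have hae : 1 ≤ e + E₁ := by linarith
    have h0 : e ≤ (e + E₁) * e := by nlinarith
    refine M4_core E₁ E₂ 0 E₄ e 1 (by linarith) (by linarith) (by linarith) (by linarith)
      (by linarith) (by linarith) ?_
    nlinarith
  · subst h h'
    obtain ⟨e, he⟩ : ∃ e, e = |E₁| + |E₂| + 1 := ⟨_, rfl⟩
    have hae : 1 ≤ e + E₁ := by linarith
    have h0 : e ≤ (e + E₁) * e := by nlinarith
    refine M4_core E₁ E₂ 0 0 e 1 (by linarith) (by linarith) (by linarith) (by linarith)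
      (by linarith) (by linarith) ?_
    nlinarith

theorem T2_real (s t : ℝ) : ∃ a b c d : ℝ, 0 < a ∧ 0 < b ∧ 0 < c ∧ 0 < d ∧
    (!![a, b; -c, -d] : Matrix (Fin 2) (Fin 2) ℝ).charpoly = X ^ 2 - C s * X + C t := by
  have a1 := neg_abs_le s
  have a2 := neg_abs_le t
  have b1 := abs_nonneg s
  have b2 := abs_nonneg t
  obtain ⟨d, hd⟩ : ∃ d, d = |s| + |t| + 1 := ⟨_, rfl⟩
  have had : 1 ≤ d + s := by linarith
  have h0 : d ≤ (d + s) * d := by nlinarith
  refine ⟨d + s, t + (d + s) * d, 1, d, by linarith, by linarith, one_pos, by linarith, ?_⟩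
  simp [Matrix.charpoly, Matrix.charmatrix, Matrix.det_succ_row_zero, Fin.sum_univ_succ, Fin.succAbove, Matrix.diagonal]
  ring

theorem charpoly2 (a b c d : ℝ) :
    (!![a, b; c, d] : Matrix (Fin 2) (Fin 2) ℝ).charpoly =
      X ^ 2 - C (a + d) * X + C (a * d - b * c) := by
  simp [Matrix.charpoly, Matrix.charmatrix, Matrix.det_succ_row_zero, Fin.sum_univ_succ,
    Fin.succAbove, Matrix.diagonal]
  ring

/-- characteristic polynomial of a block diagonal matrix of order `4 + 2` -/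
theorem charpoly_block (a b c d e f g h i j k l m n o p q r s t : ℝ) :
    (!![a, b, c, d, 0, 0; e, f, g, h, 0, 0; i, j, k, l, 0, 0; m, n, o, p, 0, 0;
        0, 0, 0, 0, q, r; 0, 0, 0, 0, s, t] : Matrix (Fin 6) (Fin 6) ℝ).charpoly =
      (!![a, b, c, d; e, f, g, h; i, j, k, l; m, n, o, p] : Matrix (Fin 4) (Fin 4) ℝ).charpoly *
      (!![q, r; s, t] : Matrix (Fin 2) (Fin 2) ℝ).charpoly := by
  have key : (!![a, b, c, d, 0, 0; e, f, g, h, 0, 0; i, j, k, l, 0, 0; m, n, o, p, 0, 0;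
        0, 0, 0, 0, q, r; 0, 0, 0, 0, s, t] : Matrix (Fin 6) (Fin 6) ℝ) =
      Matrix.reindex (finSumFinEquiv (m := 4) (n := 2)) (finSumFinEquiv (m := 4) (n := 2))
        (Matrix.fromBlocks
          (!![a, b, c, d; e, f, g, h; i, j, k, l; m, n, o, p] : Matrix (Fin 4) (Fin 4) ℝ) 0 0
          (!![q, r; s, t] : Matrix (Fin 2) (Fin 2) ℝ)) := by
    ext x y
    fin_cases x <;> fin_cases y <;> rfl
  rw [key, Matrix.charpoly_reindex, Matrix.charpoly_fromBlocks_zero₂₁]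

/-- The order 6 sign pattern `M₄ ⊕ T₂`. -/
def patA : Matrix (Fin 6) (Fin 6) SignType :=
  !![ 1,  1, -1,  0,  0,  0;
     -1, -1,  1,  0,  0,  0;
      0,  0,  0, -1,  0,  0;
      1,  1,  0,  0,  0,  0;
      0,  0,  0,  0,  1,  1;
      0,  0,  0,  0, -1, -1]

/-- The superpattern of `M₄ ⊕ T₂` whose only new nonzero entry is `+` in position `(1,4)`. -/
def patA' : Matrix (Fin 6) (Fin 6) SignType :=
  !![ 1,  1, -1,  1,  0,  0;
     -1, -1,  1,  0,  0,  0;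
      0,  0,  0, -1,  0,  0;
      1,  1,  0,  0,  0,  0;
      0,  0,  0,  0,  1,  1;
      0,  0,  0,  0, -1, -1]

theorem patA_sap : SpectrallyArbitrary patA := by
  -- it is enough to split off a good quartic
  have main : ∀ E₁ E₂ E₃ E₄ s t : ℝ,
      (E₃ ≠ 0 ∨ (E₃ = 0 ∧ 0 < E₄) ∨ (E₃ = 0 ∧ E₄ = 0 ∧ 4 * E₂ ≤ E₁ ^ 2)) →
      ∃ B : Matrix (Fin 6) (Fin 6) ℝ, IsRealization patA B ∧
        B.charpoly = (X ^ 4 - C E₁ * X ^ 3 + C E₂ * X ^ 2 - C E₃ * X + C E₄) *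
          (X ^ 2 - C s * X + C t) := by
    intro E₁ E₂ E₃ E₄ s t hE
    obtain ⟨a, b, c, d, e, f, g, h, i, ha, hb, hc, hd, he, hf, hg, hh, hi, hM⟩ :=
      M4_real E₁ E₂ E₃ E₄ hE
    obtain ⟨q, r, u, v, hq, hr, hu, hv, hT⟩ := T2_real s t
    refine ⟨!![a, b, -c, 0, 0, 0; -d, -e, f, 0, 0, 0; 0, 0, 0, -g, 0, 0; h, i, 0, 0, 0, 0;
      0, 0, 0, 0, q, r; 0, 0, 0, 0, -u, -v], ?_, ?_⟩
    · intro x y
      fin_cases x <;> fin_cases y <;>
        simp [patA, ha, hb, hc, hd, he, hf, hg, hh, hi, hq, hr, hu, hv]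
    · rw [charpoly_block, hM, hT]
  intro p hp hdeg
  obtain ⟨s₁, t₁, s₂, t₂, s₃, t₃, rfl⟩ := sextic_factor p hp hdeg
  -- the product of two quadratics in coefficient form
  have hprod : ∀ s t s' t' : ℝ, (X ^ 2 - C s * X + C t : ℝ[X]) * (X ^ 2 - C s' * X + C t') =
      X ^ 4 - C (s + s') * X ^ 3 + C (t + t' + s * s') * X ^ 2 - C (s * t' + s' * t) * X
        + C (t * t') := by
    intro s t s' t'
    simp only [map_add, map_mul]
    ring
  -- `good s t s' t'`: the product of the two quadratics is realized by `M₄`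
  by_cases h12 : (s₁ * t₂ + s₂ * t₁ ≠ 0 ∨ (s₁ * t₂ + s₂ * t₁ = 0 ∧ 0 < t₁ * t₂) ∨
      (s₁ * t₂ + s₂ * t₁ = 0 ∧ t₁ * t₂ = 0 ∧ 4 * (t₁ + t₂ + s₁ * s₂) ≤ (s₁ + s₂) ^ 2))
  · obtain ⟨B, hB, hBp⟩ := main _ _ _ _ s₃ t₃ h12
    refine ⟨B, hB, ?_⟩
    rw [hBp, ← hprod]; ring
  by_cases h13 : (s₁ * t₃ + s₃ * t₁ ≠ 0 ∨ (s₁ * t₃ + s₃ * t₁ = 0 ∧ 0 < t₁ * t₃) ∨
      (s₁ * t₃ + s₃ * t₁ = 0 ∧ t₁ * t₃ = 0 ∧ 4 * (t₁ + t₃ + s₁ * s₃) ≤ (s₁ + s₃) ^ 2))
  · obtain ⟨B, hB, hBp⟩ := main _ _ _ _ s₂ t₂ h13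
    refine ⟨B, hB, ?_⟩
    rw [hBp, ← hprod]; ring
  by_cases h23 : (s₂ * t₃ + s₃ * t₂ ≠ 0 ∨ (s₂ * t₃ + s₃ * t₂ = 0 ∧ 0 < t₂ * t₃) ∨
      (s₂ * t₃ + s₃ * t₂ = 0 ∧ t₂ * t₃ = 0 ∧ 4 * (t₂ + t₃ + s₂ * s₃) ≤ (s₂ + s₃) ^ 2))
  · obtain ⟨B, hB, hBp⟩ := main _ _ _ _ s₁ t₁ h23
    refine ⟨B, hB, ?_⟩
    rw [hBp, ← hprod]; ring
  exfalso
  push Not at h12 h13 h23
  obtain ⟨p1, p2, p3⟩ := h12
  obtain ⟨q1, q2, q3⟩ := h13
  obtain ⟨r1, r2, r3⟩ := h23
  have p2 := p2 p1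
  have p3 := p3 p1
  have q2 := q2 q1
  have q3 := q3 q1
  have r2 := r2 r1
  have r3 := r3 r1
  -- one of the three constant terms vanishes
  have hzero : t₁ = 0 ∨ t₂ = 0 ∨ t₃ = 0 := by
    by_contra hne
    push Not at hne
    obtain ⟨n1, n2, n3⟩ := hne
    have m1 : t₁ * t₂ < 0 := lt_of_le_of_ne p2 (mul_ne_zero n1 n2)
    have m2 : t₁ * t₃ < 0 := lt_of_le_of_ne q2 (mul_ne_zero n1 n3)
    have m3 : t₂ * t₃ < 0 := lt_of_le_of_ne r2 (mul_ne_zero n2 n3)
    nlinarith [mul_pos_of_neg_of_neg m1 m2, sq_nonneg t₁, mul_pos (neg_pos.mpr m3) (sq_pos_of_ne_zero n1 |> fun h => h)]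
  rcases hzero with h | h | h
  · subst h
    have p3 := p3 (by ring)
    have q3 := q3 (by ring)
    have m2 : 0 < t₂ := by nlinarith [sq_nonneg (s₁ - s₂)]
    have m3 : 0 < t₃ := by nlinarith [sq_nonneg (s₁ - s₃)]
    nlinarith [mul_pos m2 m3]
  · subst h
    have p3 := p3 (by ring)
    have r3 := r3 (by ring)
    have m1 : 0 < t₁ := by nlinarith [sq_nonneg (s₁ - s₂)]
    have m3 : 0 < t₃ := by nlinarith [sq_nonneg (s₂ - s₃)]
    nlinarith [mul_pos m1 m3]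
  · subst h
    have q3 := q3 (by ring)
    have r3 := r3 (by ring)
    have m1 : 0 < t₁ := by nlinarith [sq_nonneg (s₁ - s₃)]
    have m2 : 0 < t₂ := by nlinarith [sq_nonneg (s₂ - s₃)]
    nlinarith [mul_pos m1 m2]

theorem quartic_eq_X_pow {a b c d : ℝ}
    (h : (X ^ 4 - C a * X ^ 3 + C b * X ^ 2 - C c * X + C d : ℝ[X]) = X ^ 4) :
    a = 0 ∧ b = 0 ∧ c = 0 ∧ d = 0 := by
  have c3 := congrArg (fun q => coeff q 3) h
  have c2 := congrArg (fun q => coeff q 2) h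
  have c1 := congrArg (fun q => coeff q 1) h
  have c0 := congrArg (fun q => coeff q 0) h
  simp [coeff_X, coeff_C, coeff_X_pow] at c3 c2 c1 c0
  exact ⟨c3, c2, c1, c0⟩

/-- The algebraic heart of the non-existence: the matrix
`[a, b, -c, s; -d, -e, f, 0; 0, 0, 0, -g; h, i, 0, 0]` with positive parameters is never
nilpotent. -/
theorem no_nilpotent {a b c s d e f g h i : ℝ} (ha : 0 < a) (hb : 0 < b) (hc : 0 < c)
    (hs : 0 < s) (hd : 0 < d) (he : 0 < e) (hf : 0 < f) (hg : 0 < g) (hh : 0 < h) (hi : 0 < i)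
    (h1 : a - e = 0) (h2 : b * d - a * e - s * h = 0)
    (h3 : g * (c * h - f * i) + s * (e * h - d * i) = 0)
    (h4 : g * (b * f * h + c * d * i - c * e * h - a * f * i) = 0) : False := by
  have hea : e = a := by linarith
  subst hea
  have h4' : b * f * h = e * (f * i + c * h) - c * d * i := by
    have := (mul_eq_zero.mp h4).resolve_left hg.ne'
    linarith
  -- `δ = c d i - e c h`
  obtain ⟨δ, hδ⟩ : ∃ δ, δ = c * d * i - e * c * h := ⟨_, rfl⟩
  have h3' : s * δ = g * c * (c * h - f * i) := by rw [hδ]; linear_combination (-c) * h3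
  have hprod : (b * f * h) * (c * d * i) = (e ^ 2 + s * h) * (f * i) * (c * h) := by
    have : b * d = e ^ 2 + s * h := by linarith
    calc (b * f * h) * (c * d * i) = (b * d) * (f * i) * (c * h) := by ring
      _ = _ := by rw [this]
  have hexp : (b * f * h) * (c * d * i) =
      e ^ 2 * (f * i) * (c * h) - e * δ * (c * h - f * i) - δ ^ 2 := by
    rw [h4', hδ]; ring
  have hkey : s * h * (f * i) * (c * h) = - e * δ * (c * h - f * i) - δ ^ 2 := by
    linear_combination hexp - hprod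
  have hkey2 : s * (s * h * (f * i) * (c * h)) =
      - (e * g * c * (c * h - f * i) ^ 2) - s * δ ^ 2 := by
    rw [hkey]
    linear_combination (-e * (c * h - f * i)) * h3'
  have hpos : 0 < s * (s * h * (f * i) * (c * h)) := by positivity
  have hneg : 0 ≤ e * g * c * (c * h - f * i) ^ 2 + s * δ ^ 2 := by positivity
  linarith

theorem sign_pos_of {x : ℝ} (h : SignType.sign x = 1) : 0 < x := sign_eq_one_iff.mp h
theorem sign_neg_of {x : ℝ} (h : SignType.sign x = -1) : x < 0 := sign_eq_neg_one_iff.mp h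
theorem sign_zero_of {x : ℝ} (h : SignType.sign x = 0) : x = 0 := sign_eq_zero_iff.mp h

theorem patA'_not_sap : ¬ SpectrallyArbitrary patA' := by
  intro hS
  obtain ⟨B, hB, hBp⟩ := hS (X ^ 6) (monic_X_pow 6) (natDegree_X_pow 6)
  -- signs of the entries of `B`
  have h00 : 0 < B 0 0 := sign_pos_of (hB 0 0)
  have h01 : 0 < B 0 1 := sign_pos_of (hB 0 1)
  have h02 : B 0 2 < 0 := sign_neg_of (hB 0 2)
  have h03 : 0 < B 0 3 := sign_pos_of (hB 0 3)
  have h10 : B 1 0 < 0 := sign_neg_of (hB 1 0)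
  have h11 : B 1 1 < 0 := sign_neg_of (hB 1 1)
  have h12 : 0 < B 1 2 := sign_pos_of (hB 1 2)
  have h23 : B 2 3 < 0 := sign_neg_of (hB 2 3)
  have h30 : 0 < B 3 0 := sign_pos_of (hB 3 0)
  have h31 : 0 < B 3 1 := sign_pos_of (hB 3 1)
  have hBeq : B = !![B 0 0, B 0 1, B 0 2, B 0 3, 0, 0; B 1 0, B 1 1, B 1 2, 0, 0, 0;
      0, 0, 0, B 2 3, 0, 0; B 3 0, B 3 1, 0, 0, 0, 0;
      0, 0, 0, 0, B 4 4, B 4 5; 0, 0, 0, 0, B 5 4, B 5 5] := by
    ext x y
    fin_cases x <;> fin_cases y <;> first | rfl | exact sign_zero_of (hB _ _)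
  rw [hBeq, charpoly_block] at hBp
  -- the quartic factor divides `X ^ 6`, hence is `X ^ 4`
  obtain ⟨M, hM⟩ : ∃ M : Matrix (Fin 4) (Fin 4) ℝ, M = !![B 0 0, B 0 1, B 0 2, B 0 3;
      B 1 0, B 1 1, B 1 2, 0; 0, 0, 0, B 2 3; B 3 0, B 3 1, 0, 0] := ⟨_, rfl⟩
  rw [← hM] at hBp
  have hdvd : M.charpoly ∣ (X : ℝ[X]) ^ 6 := Dvd.intro _ hBp
  obtain ⟨i, hi, hass⟩ := (dvd_prime_pow Polynomial.prime_X 6).1 hdvd
  have hMi : M.charpoly = X ^ i :=
    Polynomial.eq_of_monic_of_associated M.charpoly_monic (monic_X_pow i) hass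
  have hi4 : i = 4 := by
    have := M.charpoly_natDegree_eq_dim
    rw [hMi, natDegree_X_pow] at this
    simpa using this
  rw [hi4, hM, charpoly4] at hMi
  obtain ⟨c3, c2, c1, c0⟩ := quartic_eq_X_pow hMi
  refine no_nilpotent (a := B 0 0) (b := B 0 1) (c := -B 0 2) (s := B 0 3) (d := -B 1 0)
    (e := -B 1 1) (f := B 1 2) (g := -B 2 3) (h := B 3 0) (i := B 3 1) h00 h01 (by linarith) h03
    (by linarith) (by linarith) h12 (by linarith) h30 h31 ?_ ?_ ?_ ?_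
  · linarith
  · linarith
  · linarith
  · linarith

/-- There is a spectrally arbitrary sign pattern (of order 6) with a superpattern that is not
spectrally arbitrary. -/
theorem result : ∃ A A' : Matrix (Fin 6) (Fin 6) SignType,
    IsSuperpattern A' A ∧ SpectrallyArbitrary A ∧ ¬ SpectrallyArbitrary A' := by
  refine ⟨patA, patA', ?_, patA_sap, patA'_not_sap⟩
  intro i j
  fin_cases i <;> fin_cases j <;> simp [patA, patA']

end Pool.Agent.Results.MP_557f7f_co.SapSuperpattern
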